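import Pool.Agent.J6H15.LH.TwoStep

/-!
# MP_a150d7_gt, Q1 for all 2-step solvable Lie groups

A left invariant Hermitian structure on a unimodular 2-step solvable (metabelian) Lie group with
constant Chern holomorphic sectional curvature is Chern flat.

The definitions (`LieHermitian`, `Unimodular`, `IsChern`, `ConstantHSC`, `Flat`) are those of the
starting file `Pool.Agent.K1H64.LH.Defs`.
-/

namespace Pool.Agent.Results.MP_a150d7_gt.ChernTwoStepSolvable

open Pool.Agent.K1H64.LH

universe u

/-- **Q1 for 2-step solvable Lie groups.** Let `g` be a nonzero finite-dimensional real Lie algebra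
which is 2-step solvable (`⁅⁅x, y⁆, ⁅z, w⁆⁆ = 0` for all `x, y, z, w`) and unimodular, `J` an
integrable complex structure on `g`, `B` a compatible inner product, and `D` the Chern connection
of the corresponding left invariant Hermitian structure. If its holomorphic sectional curvature is
identically `c`, then `c = 0` and `D` is flat. -/
theorem result {g : Type u} [LieRing g] [LieAlgebra ℝ g] [FiniteDimensional ℝ g] [Nontrivial g]
    {J : g →ₗ[ℝ] g} {B : g →ₗ[ℝ] g →ₗ[ℝ] ℝ} (H : LieHermitian J B)
    (hu : Unimodular g) (h2 : ∀ x y z w : g, ⁅⁅x, y⁆, ⁅z, w⁆⁆ = 0)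
    {D : g →ₗ[ℝ] g →ₗ[ℝ] g} (hD : IsChern J B D) {c : ℝ} (hc : ConstantHSC J B D c) :
    c = 0 ∧ Flat D :=
  Pool.Agent.J6H15.LH.chern_twostep H hu h2 hD hc

end Pool.Agent.Results.MP_a150d7_gt.ChernTwoStepSolvable
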