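import Pool.Agent.J6H15.LH.RTwo2

/-!
# MP_a150d7_gt, Q2 for classes of 2-step solvable Lie groups, and a criterion

Left invariant Hermitian structures with constant Riemannian holomorphic sectional curvature on
unimodular Lie groups. The definitions (`LieHermitian`, `Unimodular`, `ChernRicciFlat`,
`IsLeviCivita`, `ConstantHSC`, `Flat`) are those of the starting file `Pool.Agent.K1H64.LH.Defs`.

Outline. Let `A` be a commutative algebra of operators on a Euclidean space `N` of dimension `d`.
Then there is a unit vector `u` with `⟨M u, u⟩ = tr M / d` for all `M` in `A`, and `u` is killed by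
the nilpotent elements of `A` (`exists_state`). To see this take a vector `u₀` which is killed by the
nilpotent elements and the annihilator of which in `A` consists of nilpotent elements (one with an
annihilator of minimal dimension). Then `b u₀ ↦ det b` is a well defined function on `A u₀`, which is
homogeneous of degree `d`; its maximum on the unit sphere is attained at a vector `u` with
`det (1 + t M) ≤ |(1 + t M) u|^d`, and one compares the derivatives at `t = 0`.

If `N` is an ideal on which `g` acts by commuting operators with trace zero, and `ad (J x)` is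
nilpotent on `N` for `x ∈ N`, this gives a vector `u ∈ N` which is orthogonal to `[u, g]` with
`[u, J u] = 0`. Hence `D_u u = 0`, and the sectional curvature of the plane `(u, J u)` is
`|D_u (J u)|² ≥ 0`; so `c ≥ 0`. The case `c ≥ 0` follows from a trace identity, if the Chern-Ricci
form vanishes (`riem_zero` of the starting library). For an abelian ideal `N` which contains all
brackets the product `x · y = [J x, y]` makes `N / (N ∩ J N)` a commutative associative algebra, the
Chern-Ricci form is given by the trace of this algebra, and if `N ∩ J N = 0` it is nilpotent, because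
the trace of `ad (J x)` is zero for all `x`.
-/

namespace Pool.Agent.Results.MP_a150d7_gt.RiemannTwoStep

open Pool.Agent.K1H64.LH Pool.Agent.J6H15.LH

universe u

/-- Let `g` be a nonzero finite-dimensional unimodular real Lie algebra, `J` an integrable complex
structure on `g`, `B` a compatible inner product, and `D` the Levi-Civita connection of the
corresponding left invariant metric. Suppose that the holomorphic sectional curvature of `D` is
identically `c`. Then `c = 0`, `D` is flat and `J` is parallel in each of the following cases.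

(1) The Chern-Ricci form is zero, and there is a nonzero ideal `N` on which all brackets act
trivially, all `ad y` have trace zero, and all `ad (J x)` with `x ∈ N` are nilpotent.

(2) There is an abelian ideal `N` that contains all brackets (so `g` is 2-step solvable), and
(a) `J N ⊆ N`, or
(b) `N ∩ J N = 0`, or
(c) `ad (J x)` is nilpotent for all `x ∈ N`, or
(d) `N + J N = g`, and for all `x ∈ N` the operator `ad (J x)` is nilpotent modulo `N ∩ J N`. -/
theorem result {g : Type u} [LieRing g] [LieAlgebra ℝ g] [FiniteDimensional ℝ g] [Nontrivial g]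
    {J : g →ₗ[ℝ] g} {B : g →ₗ[ℝ] g →ₗ[ℝ] ℝ} (H : LieHermitian J B) (hu : Unimodular g)
    {D : g →ₗ[ℝ] g →ₗ[ℝ] g} (hD : IsLeviCivita B D) {c : ℝ} (hc : ConstantHSC J B D c)
    (N : LieIdeal ℝ g)
    (hN : (ChernRicciFlat J ∧ N ≠ ⊥ ∧ (∀ x y : g, ∀ z ∈ N, ⁅⁅x, y⁆, z⁆ = 0) ∧
        (∀ y : g, LinearMap.trace ℝ N (LieModule.toEnd ℝ g N y) = 0) ∧
        ∀ x ∈ N, IsNilpotent (LieModule.toEnd ℝ g N (J x))) ∨
      ((∀ x y : g, ⁅x, y⁆ ∈ N) ∧ (∀ x ∈ N, ∀ y ∈ N, ⁅x, y⁆ = 0) ∧
        ((∀ x ∈ N, J x ∈ N) ∨ (∀ x ∈ N, J x ∈ N → x = 0) ∨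
          (∀ x ∈ N, IsNilpotent (LieAlgebra.ad ℝ g (J x))) ∨
          (∀ y : g, ∃ x ∈ N, ∃ x' ∈ N, y = x + J x') ∧
            ∀ x ∈ N, ∃ k : ℕ, ∀ w ∈ N, J (((LieAlgebra.ad ℝ g (J x)) ^ k) w) ∈ N))) :
    c = 0 ∧ Flat D ∧ ∀ x y, D x (J y) = J (D x y) := by
  rcases hN with ⟨h1, h2, h3, h4, h5⟩ | ⟨h1, h2, h3⟩
  · exact riem_ideal H hu (ric_of_flat H hu h1 (brk H).geo) N h2 h3 h4 h5 hD hc
  · have A : AbI N := ⟨h1, h2⟩
    rcases h3 with h3 | h3 | h3 | ⟨h3, h4⟩
    · refine riem_two_nil H hu A (fun x hx => ⟨1, ?_⟩) hD hc
      rw [pow_one]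
      exact LinearMap.ext fun w => Subtype.ext (h2 _ (h3 x hx) _ w.2)
    · exact riem_two_nil H hu A (nil_of_real H hu A h3) hD hc
    · refine riem_two_nil H hu A (fun x hx => ?_) hD hc
      obtain ⟨k, hk⟩ := h3 x hx
      refine ⟨k, LinearMap.ext fun w => Subtype.ext ?_⟩
      have h6 : ∀ j : ℕ, ((((LieModule.toEnd ℝ g N (J x)) ^ j) w : N) : g)
          = ((LieAlgebra.ad ℝ g (J x)) ^ j) (w : g) := by
        intro j
        induction j with
        | zero => rfl
        | succ j ih =>
          rw [pow_succ', Module.End.mul_apply, pow_succ', Module.End.mul_apply, ← ih]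
          rfl
      rw [h6, hk]
      rfl
    · exact riem_two_sum H hu A h3 h4 hD hc

end Pool.Agent.Results.MP_a150d7_gt.RiemannTwoStep
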