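import Pool.Agent.J6H15.LH.NilQ2

/-!
# MP_a150d7_gt, Q2 for all solvable Lie groups of type (I)

A left invariant Hermitian structure on a unimodular solvable Lie group of type (I), whose
Riemannian holomorphic sectional curvature is constant, is flat and Kähler. In particular this holds
for all complex nilmanifolds (with an arbitrary left invariant complex structure); then the group is
abelian.

The definitions (`LieHermitian`, `Unimodular`, `TypeI`, `IsLeviCivita`, `ConstantHSC`, `Flat`) are
those of the starting file `Pool.Agent.K1H64.LH.Defs`.

Outline. By Lie's theorem there is a common eigenvector `a + i b` of the operators `ad y` on the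
complexification, and the eigenvalues `i β(y)` are imaginary. The span of `a` and `b` is an abelian
ideal, on which `g` acts by rotations (with respect to some inner product), and integrability gives
`β(J a)² + β(J b)² = 0`. So for all `u` in this span `[u, J u] = 0`, and if `u` is on a principal axis
of the metric, then `u` is orthogonal to `[u, g]`. Then `D_u u = 0` and the sectional curvature of
the plane `(u, J u)` is `|D_u (J u)|² ≥ 0`, so `c ≥ 0`. For `c ≥ 0` a trace identity for Hermitian
structures with vanishing Chern-Ricci form (`riem_zero` of the starting library) gives `c = 0` and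
the vanishing of the torsion of the Chern connection, and the curvature of a Kähler metric with
holomorphic sectional curvature zero vanishes.
-/

namespace Pool.Agent.Results.MP_a150d7_gt.RiemannTypeI

open Pool.Agent.K1H64.LH

universe u

/-- **Q2 for solvable Lie groups of type (I), and for nilpotent Lie groups.** Let `g` be a nonzero
finite-dimensional unimodular real Lie algebra, `J` an integrable complex structure on `g`, `B` a
compatible inner product, and `D` the Levi-Civita connection of the corresponding left invariant
metric. Suppose that the holomorphic sectional curvature of `D` is identically `c`.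

(1) If `g` is solvable of type (I), then `c = 0`, `D` is flat, and `J` is parallel.
(2) If `g` is nilpotent, then `c = 0` and `g` is abelian. -/
theorem result {g : Type u} [LieRing g] [LieAlgebra ℝ g] [FiniteDimensional ℝ g] [Nontrivial g]
    {J : g →ₗ[ℝ] g} {B : g →ₗ[ℝ] g →ₗ[ℝ] ℝ} (H : LieHermitian J B) (hu : Unimodular g)
    {D : g →ₗ[ℝ] g →ₗ[ℝ] g} (hD : IsLeviCivita B D) {c : ℝ} (hc : ConstantHSC J B D c) :
    (TypeI g → c = 0 ∧ Flat D ∧ ∀ x y, D x (J y) = J (D x y)) ∧
      (LieRing.IsNilpotent g → c = 0 ∧ IsLieAbelian g) := by
  refine ⟨fun hg => Pool.Agent.J6H15.LH.riem_typeI H hu hg hD hc, fun hn => ?_⟩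
  obtain ⟨h1, h2, -⟩ := Pool.Agent.J6H15.LH.riem_typeI H hu
    (Pool.Agent.J6H15.LH.typeI_of_nilpotent hn) hD hc
  exact ⟨h1, Pool.Agent.J6H15.LH.abelian_of_flat H hn hD h2⟩

end Pool.Agent.Results.MP_a150d7_gt.RiemannTypeI
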